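import Mathlib
import Pool.Agent.Helper65.Vojta.Final

/-!
Sharpness of Vojta's inequality for quadratic points of the projective line.

The definitions `hgt`, `dk`, `lamD`, `lhs` are in `Pool/Agent/Helper65/Vojta/Defs.lean`; they are
built on `Pool/Agent/Helper64/Vojta` (`Pl`, `nv`, `sn`, `ev`, `cst`, `wloc`, `above`).

Let `k` be any number field, `S` any finite set of at least two places containing the infinite
ones, `D` the sum of `q ≥ 3` distinct `k`-rational points of the projective line (the zeros of the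
pairwise non-proportional forms `D i`). Then there are points `x` of degree at most `2` over `k`
of arbitrarily large height, outside `D`, with
* `h_K(x) + ∑_{ν ∈ S} λ_D(x,ν) ≥ h(x) - C`,
* `h_K(x) + ∑_{ν ∈ S} λ_D(x,ν) ≥ d_k(x) + ([k:ℚ]/2) log h(x) - C`.
Consequently no inequality `h_K(x) + ∑_{ν ∈ S} λ_D(x,ν) ≤ ε h(x) + δ d_k(x) + C` with `ε, δ ≥ 0`,
`ε + δ < 1` holds for all points of degree at most two outside a finite set.
-/

namespace Pool.Agent.Results.MP_71c16a_nt.SharpDiscriminant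

open NumberField Finset Pool.Agent.Helper64.Vojta Pool.Agent.Helper65.Vojta

universe u

theorem result {k : Type u} [Field k] [NumberField k] (S : Finset (Pl k))
    (hS : ∀ v : InfinitePlace k, Sum.inl v ∈ S) (hS2 : 2 ≤ S.card) {q : ℕ} (hq : 3 ≤ q)
    (D : Fin q → Fin 2 → k) (hD : ∀ i j, i ≠ j → D i 0 * D j 1 ≠ D i 1 * D j 0) :
    (∃ C : ℝ, ∀ H : ℝ, ∃ (L : Type u) (_ : Field L) (_ : NumberField L) (_ : Algebra k L)
      (x : Fin 2 → L), x ≠ 0 ∧ (∀ i, ev (cst (D i)) x ≠ 0) ∧ Module.finrank k L ≤ 2 ∧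
      (∀ F : IntermediateField k L, (∀ i j, x i / x j ∈ F) → F = ⊤) ∧
      H ≤ hgt k x ∧ hgt k x - C ≤ lhs D S x ∧
      dk k L + (Module.finrank ℚ k : ℝ) / 2 * Real.log (hgt k x) - C ≤ lhs D S x) ∧
    (∀ ε δ C : ℝ, 0 ≤ ε → 0 ≤ δ → ε + δ < 1 → ∀ H : ℝ, ∃ (L : Type u) (_ : Field L) (_ : NumberField L)
      (_ : Algebra k L) (x : Fin 2 → L), x ≠ 0 ∧ (∀ i, ev (cst (D i)) x ≠ 0) ∧
      Module.finrank k L ≤ 2 ∧ (∀ F : IntermediateField k L, (∀ i j, x i / x j ∈ F) → F = ⊤) ∧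
      H ≤ hgt k x ∧ ε * hgt k x + δ * dk k L + C < lhs D S x) := by
  have h1 := sharp S hS hS2 hq D hD
  refine ⟨h1, ?_⟩
  obtain ⟨C0, hC0⟩ := h1
  intro ε δ C hε hδ hεδ H
  have hpos : 0 < 1 - δ - ε := by linarith
  obtain ⟨L, i1, i2, i3, x, hx0, hax, hr, hF, hH, hlow, hdk⟩ :=
    hC0 (max (max H 1) ((C0 + |C| + |C0| * 2 + 1) / (1 - δ - ε)))
  refine ⟨L, i1, i2, i3, x, hx0, hax, hr, hF, ?_, ?_⟩
  · exact (le_max_left H 1).trans ((le_max_left _ _).trans hH)
  · have hh1 : 1 ≤ hgt k x := (le_max_right H 1).trans ((le_max_left _ _).trans hH)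
    have hh2 : C0 + |C| + |C0| * 2 + 1 ≤ (1 - δ - ε) * hgt k x := by
      have := (le_max_right (max H 1) _).trans hH
      rw [div_le_iff₀ hpos] at this
      linarith
    have hlog : 0 ≤ (Module.finrank ℚ k : ℝ) / 2 * Real.log (hgt k x) :=
      mul_nonneg (by positivity) (Real.log_nonneg hh1)
    have hd : dk k L ≤ lhs D S x + C0 := by linarith
    have h2 : δ * dk k L ≤ δ * (lhs D S x + C0) := mul_le_mul_of_nonneg_left hd hδ
    by_contra hcon
    rw [not_lt] at hcon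
    have h4 : (1 - δ) * (hgt k x - C0) ≤ (1 - δ) * lhs D S x :=
      mul_le_mul_of_nonneg_left hlow (by linarith)
    have h5 := le_abs_self C
    have h6 := le_abs_self C0
    have h7 := abs_nonneg C0
    have h8 := neg_abs_le C
    nlinarith

end Pool.Agent.Results.MP_71c16a_nt.SharpDiscriminant
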